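import Pool.Agent.P.MP_19a1a5_lc.Main

set_option autoImplicit false

namespace Pool.Agent.Results.MP_19a1a5_lc.FewGenerators

open Pool.Agent.P.MP_19a1a5_lc

universe u

/-- Assume the Ultrapower Axiom. Let `U` be an irreducible ultrafilter with ultrapower embedding
`j : V → M` and critical point `κ`, and let `β` be an ordinal below which `j` has at most `κ`
generators. Then either `U` is Rudin-Keisler equivalent to a Dodd sound ultrafilter on `κ`, or
`β < j(κ)` and the map `X ↦ j(X) ∩ β`, `X ⊆ κ`, is an element of `M`. For `β = j(κ)` the second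
alternative fails. -/
theorem result (hUA : UA.{u}) (Y U : ZFSet.{u}) (M : Set ZFSet.{u}) (j π : ZFSet.{u} → ZFSet.{u})
    (hU : IsUlt Set.univ Y U M j π) (hirr : Irred Y U) (κ : Cardinal.{u})
    (hmove : j κ.ord.toZFSet ≠ κ.ord.toZFSet)
    (hfix : ∀ a < κ.ord, j a.toZFSet = a.toZFSet) (β : Ordinal.{u})
    (hgen : Cardinal.mk {ν | ν < β ∧ IsGen j ν} ≤ Cardinal.lift.{u + 1} κ) :
    (∃ W, DoddSound κ.ord W ∧ RKEquiv U W) ∨
      (β.toZFSet ∈ j κ.ord.toZFSet ∧ ∃ G ∈ M, ∀ z, z ∈ G ↔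
        ∃ X, X ⊆ κ.ord.toZFSet ∧ z = ZFSet.pair X (j X ∩ β.toZFSet)) :=
  main hUA hU hirr hmove hfix β hgen

end Pool.Agent.Results.MP_19a1a5_lc.FewGenerators
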